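import Mathlib

/-! Double covers of products of elliptic curves: definitions. -/

namespace Pool.Agent.H925R3.DC

open Finset

/-- the curve `y² = x³ + a x + b` over a field -/
def crv (K : Type) [Field K] (a b : K) : WeierstrassCurve.Affine K := ⟨0, 0, 0, a, b⟩

/-- exponents `(i, j)` of the monomials `x^i y^j` with `j ≤ 1` and pole order `2i + 3j ≤ 2m` -/
def monSet (m : ℕ) : Finset (ℕ × ℕ) :=
  ((range (m + 1)) ×ˢ (range 2)).filter (fun s => 2 * s.1 + 3 * s.2 ≤ 2 * m)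

/-- the index type of the monomials -/
abbrev Mon (m : ℕ) : Type := {s : ℕ × ℕ // s ∈ monSet m}

/-- the monomial `X^i Y^j Z^(2m - 2i - 3j)`, weighted homogeneous of degree `2m` for the weights
`2, 3, 1` of `X, Y, Z` -/
def mono {R : Type} [CommRing R] {m : ℕ} (s : Mon m) (X Y Z : R) : R :=
  X ^ s.1.1 * Y ^ s.1.2 * Z ^ (2 * m - 2 * s.1.1 - 3 * s.1.2)

/-- the general section `∑ c_s ∏ᵢ (monomial sᵢ in Xᵢ, Yᵢ, Zᵢ)` -/
def Fc {R : Type} [CommRing R] {r m : ℕ} (c : (Fin r → Mon m) → ℤ) (X Y Z : Fin r → R) : R :=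
  ∑ s : Fin r → Mon m, (c s : R) * ∏ i, mono (s i) (X i) (Y i) (Z i)

/-- the double cover `w² = F_c` of the product of the curves `Yᵢ² = Xᵢ³ + aᵢ Xᵢ Zᵢ⁴ + bᵢ Zᵢ⁶` has a
rational point (weighted homogeneous coordinates in each factor, so points at infinity are
included) -/
def HasPoint {r m : ℕ} (a b : Fin r → ℤ) (c : (Fin r → Mon m) → ℤ) : Prop :=
  ∃ (X Y Z : Fin r → ℚ) (w : ℚ),
    (∀ i, Y i ^ 2 = X i ^ 3 + a i * X i * Z i ^ 4 + b i * Z i ^ 6 ∧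
      ¬ (X i = 0 ∧ Y i = 0 ∧ Z i = 0)) ∧ w ^ 2 = Fc c X Y Z

/-- `(X, Y, Z)` are primitive integral weighted coordinates of the rational point `P` -/
def Rep {a b : ℚ} (P : (crv ℚ a b).Point) (X Y Z : ℤ) : Prop :=
  IsCoprime X Z ∧ IsCoprime Y Z ∧
    ((P = 0 ∧ X = 1 ∧ Y = 1 ∧ Z = 0) ∨
      (Z ≠ 0 ∧ ∃ h, P = .some ((X : ℚ) / (Z : ℚ) ^ 2) ((Y : ℚ) / (Z : ℚ) ^ 3) h))

/-- the abstract property behind the sieve: `v P mod p` depends, up to the square of a unit, only on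
the class of `P` modulo `p + e`, and is never zero -/
def Sieveable (e : ℤ) {G : Type} [AddCommGroup G] {ι : Type} (v : G → ι → ℤ) : Prop :=
  ∃ M D : ℕ, 0 < M ∧ 0 < D ∧ ∀ p : ℕ, p.Prime → 2 < p → ¬ p ∣ D → (M : ℤ) ∣ (p : ℤ) + e →
    (∀ P P' R : G, P = P' + ((p : ℤ) + e) • R →
      ∃ u : ℤ, ¬ (p : ℤ) ∣ u ∧ ∀ j, (p : ℤ) ∣ v P j - u ^ 2 * v P' j) ∧
    (∀ P, ∃ j, ¬ (p : ℤ) ∣ v P j)

end Pool.Agent.H925R3.DC
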