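import Mathlib
import Pool.Agent.H925R3.DC.Defs
import Pool.Agent.H410R2.Iface2
import Pool.Agent.Helper112.LS

/-! Statements (as `Prop`s) of the modules. -/

namespace Pool.Agent.H925R3.DC

open Finset

/-- MW: Mordell-Weil over `ℚ` for `y² = x³ + a x + b` -/
def MW : Prop := ∀ a b : ℤ, 4 * a ^ 3 + 27 * b ^ 2 ≠ 0 →
  AddGroup.FG (crv ℚ (a : ℚ) (b : ℚ)).Point

/-- RED: reduction modulo a prime of good reduction is a homomorphism -/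
def RED : Prop := ∀ (p : ℕ) [Fact p.Prime] (a b : ℤ), 2 < p →
  ¬ (p : ℤ) ∣ 4 * a ^ 3 + 27 * b ^ 2 →
  ∃ red : (crv ℚ (a : ℚ) (b : ℚ)).Point →+ (crv (ZMod p) (a : ZMod p) (b : ZMod p)).Point,
    ∀ (x y : ℚ) (h : (crv ℚ (a : ℚ) (b : ℚ)).Nonsingular x y),
      ((x.den : ZMod p) = 0 → red (.some x y h) = 0) ∧
      ((x.den : ZMod p) ≠ 0 → (y.den : ZMod p) ≠ 0 ∧ ∃ h', red (.some x y h) =
        .some (x : ZMod p) (y : ZMod p) h')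

/-- REDA: the sum of two integral points that are not opposite modulo `p` -/
def REDA : Prop := ∀ (K k : Type) [Field K] [Field k] [DecidableEq K] [DecidableEq k]
  (O : Subring K) (φ : O →+* k), (∀ x : K, x ∈ O ∨ x⁻¹ ∈ O) →
  (∀ x : O, φ x ≠ 0 → (x : K)⁻¹ ∈ O) → (2 : k) ≠ 0 → ∀ a b : O,
  4 * φ a ^ 3 + 27 * φ b ^ 2 ≠ 0 →
  ∀ (x₁ y₁ x₂ y₂ : O) (h₁ : (crv K a b).Nonsingular (x₁ : K) (y₁ : K))
    (h₂ : (crv K a b).Nonsingular (x₂ : K) (y₂ : K)), ¬ (φ x₁ = φ x₂ ∧ φ y₁ = - φ y₂) →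
    ∃ (x₃ y₃ : O) (h₃ : (crv K a b).Nonsingular (x₃ : K) (y₃ : K))
      (h₁' : (crv k (φ a) (φ b)).Nonsingular (φ x₁) (φ y₁))
      (h₂' : (crv k (φ a) (φ b)).Nonsingular (φ x₂) (φ y₂))
      (h₃' : (crv k (φ a) (φ b)).Nonsingular (φ x₃) (φ y₃)),
      (.some x₁ y₁ h₁ : (crv K a b).Point) + .some x₂ y₂ h₂ = .some x₃ y₃ h₃ ∧
      (.some (φ x₁) (φ y₁) h₁' : (crv k (φ a) (φ b)).Point) + .some (φ x₂) (φ y₂) h₂' =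
        .some (φ x₃) (φ y₃) h₃'

/-- REDB: the sum of two integral points that are opposite modulo `p` is in the kernel -/
def REDB : Prop := ∀ (K k : Type) [Field K] [Field k] [DecidableEq K]
  (O : Subring K) (φ : O →+* k), (∀ x : K, x ∈ O ∨ x⁻¹ ∈ O) →
  (∀ x : O, φ x ≠ 0 → (x : K)⁻¹ ∈ O) → (2 : k) ≠ 0 → ∀ a b : O,
  4 * φ a ^ 3 + 27 * φ b ^ 2 ≠ 0 →
  ∀ (x₁ y₁ x₂ y₂ : O) (h₁ : (crv K a b).Nonsingular (x₁ : K) (y₁ : K))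
    (h₂ : (crv K a b).Nonsingular (x₂ : K) (y₂ : K)), φ x₁ = φ x₂ → φ y₁ = - φ y₂ →
    ∀ (x₃ y₃ : K) (h₃ : (crv K a b).Nonsingular x₃ y₃),
      (.some x₁ y₁ h₁ : (crv K a b).Point) + .some x₂ y₂ h₂ = .some x₃ y₃ h₃ → x₃ ∉ O

/-- REDC: integral point plus nonintegral point is integral -/
def REDC : Prop := ∀ (K : Type) [Field K] [DecidableEq K]
  (O : Subring K), (∀ x : K, x ∈ O ∨ x⁻¹ ∈ O) → ∀ a b : O,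
  ∀ (x₁ y₁ x₂ y₂ : K) (h₁ : (crv K a b).Nonsingular x₁ y₁)
    (h₂ : (crv K a b).Nonsingular x₂ y₂), x₁ ∉ O → x₂ ∈ O →
    ∃ (x₃ y₃ : K) (h₃ : (crv K a b).Nonsingular x₃ y₃), x₃ ∈ O ∧
      (.some x₁ y₁ h₁ : (crv K a b).Point) + .some x₂ y₂ h₂ = .some x₃ y₃ h₃

/-- EXP: if there are `p` affine points over `𝔽_p` then `p + 1` kills the group -/
def EXP : Prop := ∀ (p : ℕ) [Fact p.Prime] (a b : ℤ), 2 < p →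
  ¬ (p : ℤ) ∣ 4 * a ^ 3 + 27 * b ^ 2 →
  Nat.card {z : ZMod p × ZMod p // z.2 ^ 2 = z.1 ^ 3 + a * z.1 + b} = p →
  ∀ Q : (crv (ZMod p) (a : ZMod p) (b : ZMod p)).Point, ((p : ℤ) + 1) • Q = 0

/-- CNT: the curves with `a b = 0` are supersingular at the primes `p ≡ -1 mod 12` -/
def CNT : Prop := ∀ (p : ℕ) (a b : ℤ), p.Prime → 12 ∣ p + 1 → a * b = 0 →
  Nat.card {z : ZMod p × ZMod p // z.2 ^ 2 = z.1 ^ 3 + a * z.1 + b} = p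

/-- REPE: existence of primitive coordinates -/
def REPE : Prop := ∀ (a b : ℤ) (P : (crv ℚ (a : ℚ) (b : ℚ)).Point), ∃ X Y Z : ℤ, Rep P X Y Z

/-- REPM: points with the same reduction have the same monomials up to the square of a unit -/
def REPM : Prop := ∀ (p : ℕ) [Fact p.Prime] (a b : ℤ), 2 < p →
  ∀ red : (crv ℚ (a : ℚ) (b : ℚ)).Point →+ (crv (ZMod p) (a : ZMod p) (b : ZMod p)).Point,
    (∀ (x y : ℚ) (h : (crv ℚ (a : ℚ) (b : ℚ)).Nonsingular x y),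
      ((x.den : ZMod p) = 0 → red (.some x y h) = 0) ∧
      ((x.den : ZMod p) ≠ 0 → (y.den : ZMod p) ≠ 0 ∧ ∃ h', red (.some x y h) =
        .some (x : ZMod p) (y : ZMod p) h')) →
    ∀ (P P' : (crv ℚ (a : ℚ) (b : ℚ)).Point) (X Y Z X' Y' Z' : ℤ), Rep P X Y Z → Rep P' X' Y' Z' →
      red P = red P' → ∀ m : ℕ, ∃ u : ℤ, ¬ (p : ℤ) ∣ u ∧
        ∀ s : Mon m, (p : ℤ) ∣ mono s X Y Z - u ^ 2 * mono s X' Y' Z'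

/-- REPN: some monomial is not divisible by `p` -/
def REPN : Prop := ∀ (p : ℕ), p.Prime → ∀ (a b : ℤ) (P : (crv ℚ (a : ℚ) (b : ℚ)).Point)
  (X Y Z : ℤ), Rep P X Y Z → ∀ m : ℕ, ∃ s : Mon m, ¬ (p : ℤ) ∣ mono s X Y Z

/-- HP: a rational point of the double cover gives a square value at primitive coordinates -/
def HP : Prop := ∀ (r m : ℕ) (a b : Fin r → ℤ) (c : (Fin r → Mon m) → ℤ),
  (∀ i, 4 * a i ^ 3 + 27 * b i ^ 2 ≠ 0) → HasPoint a b c →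
  ∀ rep : (i : Fin r) → (crv ℚ (a i : ℚ) (b i : ℚ)).Point → ℤ × ℤ × ℤ,
    (∀ i P, Rep P (rep i P).1 (rep i P).2.1 (rep i P).2.2) →
    ∃ P : (i : Fin r) → (crv ℚ (a i : ℚ) (b i : ℚ)).Point,
      IsSquare (Fc c (fun i => (rep i (P i)).1) (fun i => (rep i (P i)).2.1)
        (fun i => (rep i (P i)).2.2))

/-- CRD: number of the monomials -/
def CRD : Prop := ∀ m : ℕ, 1 ≤ m → Fintype.card (Mon m) = 2 * m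

/-- CLS: classes modulo `N` of a finitely generated group -/
def CLS : Prop := ∀ (G : Type) [AddCommGroup G] [AddGroup.FG G], ∃ t : ℕ, ∀ N : ℕ, 0 < N →
  ∃ T : Finset G, T.card ≤ N ^ t ∧ ∀ g : G, ∃ g' ∈ T, ∃ R : G, g = g' + N • R

/-- PRM: many primes `p ≤ X` whose shifts `p + e` divide one integer `N ≤ exp(X^(1/2+ε))` -/
def PRM : Prop := ∀ (M D : ℕ), 0 < M → 0 < D → ∀ e : ℤ, e = 1 ∨ e = -1 → ∀ ε : ℝ, 0 < ε →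
  ∃ X₀ : ℝ, ∀ X : ℝ, X₀ ≤ X → ∃ (S : Finset ℕ) (N : ℕ), 0 < N ∧
    (∀ p ∈ S, p.Prime ∧ 2 < p ∧ (p : ℝ) ≤ X ∧ ¬ p ∣ D ∧ (M : ℤ) ∣ (p : ℤ) + e ∧
      (p : ℤ) + e ∣ (N : ℤ)) ∧
    X ^ (1 - ε) ≤ (S.card : ℝ) ∧ Real.log N ≤ X ^ (1 / 2 + ε)

/-- the primes in `(X^(1/2-2δ), X^(1/2-δ)]` -/
noncomputable def QQ (δ X : ℝ) : Finset ℕ :=
  (Icc 1 ⌊X ^ (1 / 2 - δ)⌋₊).filter (fun q => q.Prime ∧ X ^ (1 / 2 - 2 * δ) < (q : ℝ))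

/-- the residue `-e` modulo `n` -/
def rr (e : ℤ) (n : ℕ) : ℕ := if e = 1 then n - 1 else 1

open Classical in
/-- the primes `p ≤ X` with `M ∣ p + e` and a prime of `QQ δ X` dividing `p + e` -/
noncomputable def PP (M : ℕ) (e : ℤ) (δ X : ℝ) : Finset ℕ :=
  (Icc 1 ⌊X⌋₊).filter (fun p => p.Prime ∧ (M : ℤ) ∣ (p : ℤ) + e ∧
    ∃ q ∈ QQ δ X, (q : ℤ) ∣ (p : ℤ) + e)

/-- PRMQ: Chebyshev -/
def PRMQ : Prop := ∀ δ : ℝ, 0 < δ → δ ≤ 1 / 8 → ∃ X₀ : ℝ, ∀ X : ℝ, X₀ ≤ X →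
  X ^ (1 / 2 - δ) / (4 * Real.log X) ≤ ((QQ δ X).card : ℝ)

open Pool.Agent.H410R2 in
/-- PRMS: Bombieri-Vinogradov (`Pool.Agent.H410R2.bvap`, `Pool.Agent.H732R2.pntLog`) -/
def PRMS : Prop := BVAP → PNTLog → PRMQ → ∀ (M : ℕ), 0 < M → ∀ e : ℤ, e = 1 ∨ e = -1 → ∀ δ : ℝ,
  0 < δ → δ ≤ 1 / 8 → ∃ X₀ : ℝ, ∀ X : ℝ, X₀ ≤ X →
    X / (16 * M * Real.log X) ≤ ∑ q ∈ QQ δ X, psiLogAP X (M * q) (rr e (M * q))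

open Pool.Agent.H410R2 in
/-- PRMC: from the weighted sum to a count of primes -/
def PRMC : Prop := ∀ (M : ℕ), 0 < M → ∀ e : ℤ, e = 1 ∨ e = -1 → ∀ δ : ℝ,
  0 < δ → δ ≤ 1 / 8 → ∃ X₀ : ℝ, ∀ X : ℝ, X₀ ≤ X →
    ∑ q ∈ QQ δ X, psiLogAP X (M * q) (rr e (M * q)) ≤
      2 * Real.log X ^ 3 * ((PP M e δ X).card + 2 * Real.sqrt X * Real.log X)

/-- LSF: Fourier expansion of a product of mean zero functions modulo distinct primes -/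
def LSF : Prop := ∀ (S : Finset ℕ) (g : ℕ → ℤ → ℝ), (∀ p ∈ S, p.Prime) →
  (∀ p ∈ S, ∀ n n' : ℤ, (p : ℤ) ∣ n - n' → g p n = g p n') →
  (∀ p ∈ S, ∑ t ∈ range p, g p t = 0) → (∀ p ∈ S, ∑ t ∈ range p, g p t ^ 2 ≤ p) →
  ∀ B : Finset ℕ, (∑ n ∈ B, ∏ p ∈ S, g p n) ^ 2 ≤
    ∑ a ∈ (range (∏ p ∈ S, p)).filter (fun a => a.Coprime (∏ p ∈ S, p)),
      ‖∑ n ∈ B, Pool.Agent.Helper112.ee (n * a / ((∏ p ∈ S, p : ℕ) : ℝ))‖ ^ 2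

/-- LSQ: large sieve: linear forms that are squares modulo many primes -/
def LSQ : Prop := ∀ (S : Finset ℕ) (k X L : ℕ) (α β : ℕ → ℤ),
  (∀ p ∈ S, p.Prime ∧ 2 < p ∧ p ≤ X ∧ ¬ (p : ℤ) ∣ α p) →
  (Nat.card {n : ℕ // n ∈ Icc 1 L ∧ ∀ p ∈ S, IsSquare ((α p * n + β p : ℤ) : ZMod p)} : ℝ) *
    (S.card.choose k : ℝ) ≤ 6 * 4 ^ k * (L + (X : ℝ) ^ (2 * k))

/-- LIN: the same for a linear form in several variables in a box -/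
def LIN : Prop := ∀ (ι : Type) [Fintype ι] [Nonempty ι] (S : Finset ℕ) (k X H n : ℕ) (v : ι → ℤ),
  (∀ p ∈ S, p.Prime ∧ 2 < p ∧ p ≤ X ∧ ∃ j, ¬ (p : ℤ) ∣ v j) → Fintype.card ι * n ≤ S.card →
  1 ≤ n →
  (Nat.card {c : ι → ℤ // (∀ j, |c j| ≤ H) ∧ ∀ p ∈ S, IsSquare ((∑ j, c j * v j : ℤ) : ZMod p)}
    : ℝ) * (n.choose k : ℝ) ≤ 6 * 4 ^ k * (2 * H + 1 + (X : ℝ) ^ (2 * k)) *
      (2 * H + 1) ^ (Fintype.card ι - 1)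

/-- PAR: choice of the parameters -/
def PAR : Prop := ∀ (t q : ℕ), 1 ≤ q → ∀ ε : ℝ, 0 < ε → ∃ δ : ℝ, 0 < δ ∧ ∃ η : ℝ, 0 < η ∧
  ∃ H₀ : ℕ, ∀ H : ℕ, H₀ ≤ H → ∀ (X : ℝ), X = Real.log H ^ (2 - δ) → ∀ n : ℕ,
    X ^ (1 - η) / (q : ℝ) - 1 ≤ (n : ℝ) → ∀ N : ℕ, 0 < N → Real.log N ≤ X ^ (1 / 2 + η) →
    1 ≤ X ^ (1 - η) / (q : ℝ) - 1 ∧
    ∃ k : ℕ, (⌊X⌋₊ : ℝ) ^ (2 * k) ≤ H ∧ 0 < n.choose k ∧
      (N : ℝ) ^ t * (6 * 4 ^ k * (4 * H)) / (n.choose k : ℝ) ≤ (H : ℝ) ^ (3 / 4 + ε)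

/-- ABS: the abstract sieve theorem -/
def ABS : Prop := ∀ (G : Type) [AddCommGroup G] [AddGroup.FG G] (ι : Type) [Fintype ι]
  (e : ℤ), (e = 1 ∨ e = -1) → ∀ v : G → ι → ℤ, Sieveable e v → ∀ ε : ℝ, 0 < ε →
  ∃ C : ℝ, ∀ H : ℕ, 1 ≤ H →
    (Nat.card {c : ι → ℤ // (∀ j, |c j| ≤ H) ∧ ∃ P, IsSquare (∑ j, c j * v P j)} : ℝ) ≤
      C * (H : ℝ) ^ ((Fintype.card ι : ℝ) - 1 / 4 + ε)

/-- MAIN: almost all double covers have no rational point -/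
def MAIN : Prop := ∀ (r m : ℕ), 1 ≤ r → 1 ≤ m → ∀ (a b : Fin r → ℤ) (M D : ℕ), 0 < M → 0 < D →
  (∀ i, 4 * a i ^ 3 + 27 * b i ^ 2 ≠ 0) →
  (∀ i, ∀ p : ℕ, p.Prime → ¬ p ∣ D → M ∣ p + 1 →
    Nat.card {z : ZMod p × ZMod p // z.2 ^ 2 = z.1 ^ 3 + a i * z.1 + b i} = p) →
  ∀ ε : ℝ, 0 < ε → ∃ C : ℝ, ∀ H : ℕ, 1 ≤ H →
    (Nat.card {c : (Fin r → Mon m) → ℤ // (∀ s, |c s| ≤ H) ∧ HasPoint a b c} : ℝ) ≤
      C * (H : ℝ) ^ (((2 * m) ^ r : ℝ) - 1 / 4 + ε)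

end Pool.Agent.H925R3.DC
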