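import Mathlib
import Pool.Agent.H925R3.DC.Stubs

/-! Assembly of the abstract sieve theorem. -/

namespace Pool.Agent.H925R3.DC

open Finset Filter Topology

/-- `PAR` with the extra information `δ, η ≤ 1` -/
def PAR2 : Prop := ∀ (t q : ℕ), 1 ≤ q → ∀ ε : ℝ, 0 < ε → ∃ δ : ℝ, 0 < δ ∧ δ ≤ 1 ∧ ∃ η : ℝ, 0 < η ∧
  η ≤ 1 ∧
  ∃ H₀ : ℕ, ∀ H : ℕ, H₀ ≤ H → ∀ (X : ℝ), X = Real.log H ^ (2 - δ) → ∀ n : ℕ,
    X ^ (1 - η) / (q : ℝ) - 1 ≤ (n : ℝ) → ∀ N : ℕ, 0 < N → Real.log N ≤ X ^ (1 / 2 + η) →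
    1 ≤ X ^ (1 - η) / (q : ℝ) - 1 ∧
    ∃ k : ℕ, (⌊X⌋₊ : ℝ) ^ (2 * k) ≤ H ∧ 0 < n.choose k ∧
      (N : ℝ) ^ t * (6 * 4 ^ k * (4 * H)) / (n.choose k : ℝ) ≤ (H : ℝ) ^ (3 / 4 + ε)

theorem boxfin {ι : Type} [Fintype ι] (H : ℕ) (q : (ι → ℤ) → Prop) :
    {c : ι → ℤ | (∀ j, |c j| ≤ H) ∧ q c}.Finite := by
  have : {c : ι → ℤ | ∀ j, c j ∈ Set.Icc (-(H : ℤ)) (H : ℤ)}.Finite :=
    Set.Finite.pi' fun _ => Set.finite_Icc _ _
  apply Set.Finite.subset this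
  rintro c ⟨hc, -⟩ j
  exact ⟨(abs_le.1 (hc j)).1, (abs_le.1 (hc j)).2⟩

theorem box_trivial {ι : Type} [Fintype ι] (H : ℕ) (q : (ι → ℤ) → Prop) :
    Nat.card {c : ι → ℤ // (∀ j, |c j| ≤ H) ∧ q c} ≤ (2 * H + 1) ^ Fintype.card ι := by
  classical
  have h1 : Nat.card {c : ι → ℤ // (∀ j, |c j| ≤ H) ∧ q c} ≤
      Nat.card (ι → Fin (2 * H + 1)) := by
    have hb : ∀ (c : {c : ι → ℤ // (∀ j, |c j| ≤ H) ∧ q c}) (j : ι),
        (c.1 j + H).toNat < 2 * H + 1 := by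
      intro c j
      have := abs_le.1 (c.2.1 j)
      omega
    refine Nat.card_le_card_of_injective (fun c => fun j => ⟨(c.1 j + H).toNat, hb c j⟩) ?_
    intro c c' hcc
    apply Subtype.ext
    funext j
    have h1 := congrArg (fun f => (f j).1) hcc
    simp only at h1
    have h2 := abs_le.1 (c.2.1 j)
    have h3 := abs_le.1 (c'.2.1 j)
    omega
  refine h1.trans ?_
  rw [Nat.card_fun, Nat.card_fin]
  simp

/-- union bound over classes -/
theorem union_bound {ι : Type} [Fintype ι] {G : Type} (H : ℕ) (T : Finset G)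
    (p : (ι → ℤ) → Prop) (q : G → (ι → ℤ) → Prop) (h : ∀ c, p c → ∃ g ∈ T, q g c)
    (B : ℝ) (hB : ∀ g ∈ T, (Nat.card {c : ι → ℤ // (∀ j, |c j| ≤ H) ∧ q g c} : ℝ) ≤ B) :
    (Nat.card {c : ι → ℤ // (∀ j, |c j| ≤ H) ∧ p c} : ℝ) ≤ T.card * B := by
  classical
  have hsub : {c : ι → ℤ | (∀ j, |c j| ≤ H) ∧ p c} ⊆
      ((T.biUnion fun g => (boxfin H (q g)).toFinset : Finset (ι → ℤ)) : Set (ι → ℤ)) := by
    rintro c ⟨hc, hp⟩
    obtain ⟨g, hg, hq⟩ := h c hp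
    simp only [Finset.coe_biUnion, Set.mem_iUnion]
    refine ⟨g, hg, ?_⟩
    simp only [Set.Finite.coe_toFinset]
    exact ⟨hc, hq⟩
  have h1 : Nat.card {c : ι → ℤ // (∀ j, |c j| ≤ H) ∧ p c} ≤
      (T.biUnion fun g => (boxfin H (q g)).toFinset).card := by
    have := Set.ncard_le_ncard hsub (Finset.finite_toSet _)
    rw [Set.ncard_coe_finset] at this
    exact this
  have h2 : ((T.biUnion fun g => (boxfin H (q g)).toFinset).card : ℝ) ≤
      ∑ g ∈ T, ((boxfin H (q g)).toFinset.card : ℝ) := by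
    exact_mod_cast Finset.card_biUnion_le
  have h3 : ∀ g ∈ T, ((boxfin H (q g)).toFinset.card : ℝ) ≤ B := by
    intro g hg
    have h4 := hB g hg
    have h5 : Nat.card {c : ι → ℤ // (∀ j, |c j| ≤ H) ∧ q g c} = (boxfin H (q g)).toFinset.card := by
      have := Set.ncard_eq_toFinset_card {c : ι → ℤ | (∀ j, |c j| ≤ H) ∧ q g c} (boxfin H (q g))
      exact this
    rw [h5] at h4
    exact h4
  calc (Nat.card {c : ι → ℤ // (∀ j, |c j| ≤ H) ∧ p c} : ℝ)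
      ≤ ((T.biUnion fun g => (boxfin H (q g)).toFinset).card : ℝ) := by exact_mod_cast h1
    _ ≤ ∑ g ∈ T, ((boxfin H (q g)).toFinset.card : ℝ) := h2
    _ ≤ ∑ g ∈ T, B := Finset.sum_le_sum h3
    _ = T.card * B := by rw [Finset.sum_const, nsmul_eq_mul]

theorem tendsto_X {δ : ℝ} (hδ : δ ≤ 1) :
    Tendsto (fun H : ℕ => Real.log H ^ (2 - δ)) atTop atTop :=
  (tendsto_rpow_atTop (by linarith)).comp
    (Real.tendsto_log_atTop.comp tendsto_natCast_atTop_atTop)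

theorem abs_main (hCLS : CLS) (hPRM : PRM) (hLIN : LIN) (hPAR : PAR2) : ABS := by
  classical
  intro G _ _ ι _ e he v hS ε hε
  obtain ⟨M, D, hM, hD, hp⟩ := hS
  obtain ⟨t, ht⟩ := hCLS G
  have hne : Nonempty ι := by
    obtain ⟨X₀, hX₀⟩ := hPRM M D hM hD e he 1 one_pos
    obtain ⟨S, N, -, hS1, hS2, -⟩ := hX₀ (max X₀ 1) (le_max_left _ _)
    rw [sub_self, Real.rpow_zero] at hS2
    have hpos : 0 < S.card := by exact_mod_cast lt_of_lt_of_le one_pos hS2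
    obtain ⟨p, hpS⟩ := Finset.card_pos.1 hpos
    obtain ⟨h1, h2, -, h4, h5, -⟩ := hS1 p hpS
    obtain ⟨j, -⟩ := (hp p h1 h2 h4 h5).2 0
    exact ⟨j⟩
  set q := Fintype.card ι with hq
  have hq1 : 1 ≤ q := Fintype.card_pos
  obtain ⟨δ, hδ, hδ1, η, hη, hη1, H₀, hpar⟩ := hPAR t q hq1 ε hε
  obtain ⟨X₀, hprm⟩ := hPRM M D hM hD e he η hη
  have hev := (tendsto_X hδ1).eventually_ge_atTop (max X₀ 1)
  obtain ⟨H₁, hH₁⟩ := (hev.and (eventually_ge_atTop (max H₀ 1))).exists_forall_of_atTop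
  have hqR : (1 : ℝ) ≤ q := by exact_mod_cast hq1
  have key : ∀ H : ℕ, H₁ ≤ H →
      (Nat.card {c : ι → ℤ // (∀ j, |c j| ≤ H) ∧ ∃ P, IsSquare (∑ j, c j * v P j)} : ℝ) ≤
      3 ^ (q - 1) * (H : ℝ) ^ ((q : ℝ) - 1 / 4 + ε) := by
    intro H hH
    obtain ⟨hX, hHH⟩ := hH₁ H hH
    have hHH0 : H₀ ≤ H := (le_max_left _ _).trans hHH
    have hH1 : 1 ≤ H := (le_max_right _ _).trans hHH
    have hHR : (1 : ℝ) ≤ H := by exact_mod_cast hH1
    set X : ℝ := Real.log H ^ (2 - δ) with hXdef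
    have hX1 : 1 ≤ X := (le_max_right _ _).trans hX
    obtain ⟨S, N, hN, hS1, hS2, hN2⟩ := hprm X ((le_max_left _ _).trans hX)
    set n : ℕ := S.card / q with hn
    have hn1 : X ^ (1 - η) / (q : ℝ) - 1 ≤ (n : ℝ) := by
      have h1 : (S.card : ℝ) / q ≤ n + 1 := by
        rw [div_le_iff₀ (by linarith)]
        have := Nat.lt_mul_div_succ S.card (show 0 < q by omega)
        have h2 : (S.card : ℝ) ≤ q * (n + 1) := by
          have h3 : S.card ≤ q * (S.card / q + 1) := this.le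
          have h4 : (S.card : ℝ) ≤ ((q * (S.card / q + 1) : ℕ) : ℝ) := by exact_mod_cast h3
          push_cast at h4
          simpa [hn] using h4
        linarith
      have h2 : X ^ (1 - η) / (q : ℝ) ≤ S.card / q := by
        apply div_le_div_of_nonneg_right hS2 (by linarith)
      linarith
    obtain ⟨hbig, k, hk1, hk2, hk3⟩ := hpar H hHH0 X rfl n hn1 N hN hN2
    have hnpos : 1 ≤ n := by
      have : (1 : ℝ) ≤ n := hbig.trans hn1
      exact_mod_cast this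
    obtain ⟨T, hT1, hT2⟩ := ht N hN
    -- one class
    have hclass : ∀ g ∈ T, (Nat.card {c : ι → ℤ // (∀ j, |c j| ≤ H) ∧
        ∀ p ∈ S, IsSquare ((∑ j, c j * v g j : ℤ) : ZMod p)} : ℝ) ≤
        (6 * 4 ^ k * (4 * H) * (3 * H) ^ (q - 1)) / (n.choose k : ℝ) := by
      intro g _
      have h1 := hLIN ι S k ⌊X⌋₊ H n (v g) (by
        intro p hpS
        obtain ⟨a1, a2, a3, a4, a5, -⟩ := hS1 p hpS
        exact ⟨a1, a2, Nat.le_floor a3, (hp p a1 a2 a4 a5).2 g⟩)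
        (by
          rw [← hq, hn]
          exact Nat.mul_div_le _ _) hnpos
      have hch : (0 : ℝ) < n.choose k := by exact_mod_cast hk2
      rw [le_div_iff₀ hch]
      refine h1.trans ?_
      rw [← hq]
      have e1 : (2 * (H : ℝ) + 1 + (⌊X⌋₊ : ℝ) ^ (2 * k)) ≤ 4 * H := by linarith
      have e2 : (2 * (H : ℝ) + 1) ^ (q - 1) ≤ (3 * H) ^ (q - 1) := by
        apply pow_le_pow_left₀ (by positivity)
        linarith
      have e3 : (0 : ℝ) ≤ 6 * 4 ^ k := by positivity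
      calc 6 * 4 ^ k * (2 * (H : ℝ) + 1 + (⌊X⌋₊ : ℝ) ^ (2 * k)) * (2 * (H : ℝ) + 1) ^ (q - 1)
          ≤ 6 * 4 ^ k * (4 * H) * (3 * H) ^ (q - 1) := by gcongr
        _ = _ := rfl
    have hub := union_bound H T (fun c => ∃ P, IsSquare (∑ j, c j * v P j))
      (fun g c => ∀ p ∈ S, IsSquare ((∑ j, c j * v g j : ℤ) : ZMod p)) (by
        rintro c ⟨P, hP⟩
        obtain ⟨g, hg, R, hR⟩ := hT2 P
        refine ⟨g, hg, ?_⟩
        intro p hpS
        obtain ⟨a1, a2, a3, a4, a5, a6⟩ := hS1 p hpS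
        have : Fact p.Prime := ⟨a1⟩
        obtain ⟨w, hw⟩ := a6
        have hPR : P = g + ((p : ℤ) + e) • (w • R) := by
          rw [hR, ← natCast_zsmul, hw, mul_smul]
        obtain ⟨u, hu1, hu2⟩ := (hp p a1 a2 a4 a5).1 P g (w • R) hPR
        have hu0 : (u : ZMod p) ≠ 0 := by
          intro h
          exact hu1 ((ZMod.intCast_zmod_eq_zero_iff_dvd _ p).1 h)
        obtain ⟨z, hz⟩ := hP
        have h1 : ((∑ j, c j * v P j : ℤ) : ZMod p) = (u : ZMod p) ^ 2 *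
            ((∑ j, c j * v g j : ℤ) : ZMod p) := by
          push_cast
          rw [Finset.mul_sum]
          apply Finset.sum_congr rfl
          intro j _
          have := (ZMod.intCast_zmod_eq_zero_iff_dvd _ p).2 (hu2 j)
          push_cast at this
          rw [sub_eq_zero] at this
          rw [this]; ring
        refine ⟨(z : ZMod p) / u, ?_⟩
        rw [hz] at h1
        push_cast at h1 ⊢
        field_simp
        rw [sq] at h1
        linear_combination -h1) _ hclass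
    refine hub.trans ?_
    have hch : (0 : ℝ) < n.choose k := by exact_mod_cast hk2
    have hTN : (T.card : ℝ) ≤ (N : ℝ) ^ t := by exact_mod_cast hT1
    have e4 : (H : ℝ) ^ (3 / 4 + ε) * (H : ℝ) ^ (q - 1) = (H : ℝ) ^ ((q : ℝ) - 1 / 4 + ε) := by
      rw [← Real.rpow_natCast, ← Real.rpow_add (by linarith)]
      congr 1
      rw [Nat.cast_sub hq1]
      push_cast
      ring
    calc (T.card : ℝ) * ((6 * 4 ^ k * (4 * H) * (3 * H) ^ (q - 1)) / (n.choose k : ℝ))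
        ≤ (N : ℝ) ^ t * ((6 * 4 ^ k * (4 * H) * (3 * H) ^ (q - 1)) / (n.choose k : ℝ)) := by
          gcongr
      _ = ((N : ℝ) ^ t * (6 * 4 ^ k * (4 * H)) / (n.choose k : ℝ)) * (3 * H) ^ (q - 1) := by ring
      _ ≤ (H : ℝ) ^ (3 / 4 + ε) * (3 * H) ^ (q - 1) := by gcongr
      _ = 3 ^ (q - 1) * ((H : ℝ) ^ (3 / 4 + ε) * (H : ℝ) ^ (q - 1)) := by rw [mul_pow]; ring
      _ = _ := by rw [e4]
  refine ⟨3 ^ (q - 1) + (2 * (H₁ : ℝ) + 1) ^ q, fun H hH => ?_⟩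
  have hHR : (1 : ℝ) ≤ H := by exact_mod_cast hH
  have hexp : (0 : ℝ) ≤ (q : ℝ) - 1 / 4 + ε := by linarith
  have hpow : (1 : ℝ) ≤ (H : ℝ) ^ ((q : ℝ) - 1 / 4 + ε) := Real.one_le_rpow hHR hexp
  rcases le_or_gt H₁ H with h | h
  · refine (key H h).trans ?_
    gcongr
    have : (0 : ℝ) ≤ (2 * (H₁ : ℝ) + 1) ^ q := by positivity
    linarith
  · have h1 := box_trivial H (fun c : ι → ℤ => ∃ P, IsSquare (∑ j, c j * v P j))
    have h2 : ((2 * H + 1 : ℕ) : ℝ) ^ q ≤ (2 * (H₁ : ℝ) + 1) ^ q := by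
      have : (H : ℝ) ≤ H₁ := by exact_mod_cast h.le
      push_cast
      gcongr
    have h3 : (Nat.card {c : ι → ℤ // (∀ j, |c j| ≤ H) ∧ ∃ P, IsSquare (∑ j, c j * v P j)} : ℝ) ≤
        (2 * (H₁ : ℝ) + 1) ^ q := by
      refine le_trans ?_ h2
      rw [← hq] at h1
      exact_mod_cast h1
    have h4 : (0 : ℝ) ≤ 3 ^ (q - 1) := by positivity
    calc _ ≤ (2 * (H₁ : ℝ) + 1) ^ q := h3
      _ ≤ (3 ^ (q - 1) + (2 * (H₁ : ℝ) + 1) ^ q) * 1 := by linarith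
      _ ≤ _ := by
        apply mul_le_mul_of_nonneg_left hpow
        positivity

end Pool.Agent.H925R3.DC
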