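import Mathlib
import Pool.Agent.H925R3.DC.Stubs

/-! Assembly: from the abstract sieve to double covers. -/

namespace Pool.Agent.H925R3.DC

open Finset

theorem card_box_le {ι : Type} [Fintype ι] (H : ℕ) (p q : (ι → ℤ) → Prop)
    (h : ∀ c, p c → q c) :
    Nat.card {c : ι → ℤ // (∀ j, |c j| ≤ H) ∧ p c} ≤ Nat.card {c : ι → ℤ // (∀ j, |c j| ≤ H) ∧ q c} := by
  have hfin : Finite {c : ι → ℤ // (∀ j, |c j| ≤ H) ∧ q c} := by
    have : {c : ι → ℤ | ∀ j, c j ∈ Set.Icc (-(H : ℤ)) (H : ℤ)}.Finite :=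
      Set.Finite.pi' fun _ => Set.finite_Icc _ _
    apply Set.Finite.subset this
    rintro c ⟨hc, -⟩ j
    exact ⟨(abs_le.1 (hc j)).1, (abs_le.1 (hc j)).2⟩
  exact Nat.card_le_card_of_injective (fun c => ⟨c.1, c.2.1, h _ c.2.2⟩)
    (fun c c' hcc => Subtype.ext (congrArg (fun z => z.1) hcc))

theorem sieveable (hRED : RED) (hEXP : EXP) (hREPM : REPM) (hREPN : REPN)
    {r m : ℕ} (a b : Fin r → ℤ) (M D : ℕ) (hM : 0 < M) (hD : 0 < D)
    (hdisc : ∀ i, 4 * a i ^ 3 + 27 * b i ^ 2 ≠ 0)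
    (hss : ∀ i, ∀ p : ℕ, p.Prime → ¬ p ∣ D → M ∣ p + 1 →
      Nat.card {z : ZMod p × ZMod p // z.2 ^ 2 = z.1 ^ 3 + a i * z.1 + b i} = p)
    (rep : (i : Fin r) → (crv ℚ (a i : ℚ) (b i : ℚ)).Point → ℤ × ℤ × ℤ)
    (hrep : ∀ i P, Rep P (rep i P).1 (rep i P).2.1 (rep i P).2.2) :
    Sieveable 1 (G := (i : Fin r) → (crv ℚ (a i : ℚ) (b i : ℚ)).Point) (ι := Fin r → Mon m)
      (fun P s => ∏ i, mono (s i) (rep i (P i)).1 (rep i (P i)).2.1 (rep i (P i)).2.2) := by
  classical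
  have hD' : 0 < D * ∏ i, (4 * a i ^ 3 + 27 * b i ^ 2).natAbs := by
    apply Nat.mul_pos hD
    apply Nat.pos_of_ne_zero
    rw [Finset.prod_ne_zero_iff]
    intro i _
    exact Int.natAbs_ne_zero.2 (hdisc i)
  refine ⟨M, D * ∏ i, (4 * a i ^ 3 + 27 * b i ^ 2).natAbs, hM, hD', ?_⟩
  intro p hp h2 hpD hMp
  have : Fact p.Prime := ⟨hp⟩
  have hpD1 : ¬ p ∣ D := fun h => hpD (h.mul_right _)
  have hpd : ∀ i, ¬ (p : ℤ) ∣ 4 * a i ^ 3 + 27 * b i ^ 2 := by
    intro i h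
    apply hpD
    apply Dvd.dvd.mul_left
    exact (Int.natCast_dvd.1 h).trans (Finset.dvd_prod_of_mem _ (Finset.mem_univ i))
  have hMp' : M ∣ p + 1 := by exact_mod_cast hMp
  have hred := fun i => hRED p (a i) (b i) h2 (hpd i)
  choose red hred' using hred
  constructor
  · intro P P' R hP
    have h1 : ∀ i, red i (P i) = red i (P' i) := by
      intro i
      have hPi : P i = P' i + ((p : ℤ) + 1) • R i := by rw [hP]; rfl
      have hz : ((p : ℤ) + 1) • red i (R i) = 0 := hEXP p (a i) (b i) h2 (hpd i)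
        (hss i p hp hpD1 hMp') (red i (R i))
      calc red i (P i) = red i (P' i + ((p : ℤ) + 1) • R i) := congrArg _ hPi
        _ = red i (P' i) + red i (((p : ℤ) + 1) • R i) := map_add _ _ _
        _ = red i (P' i) + ((p : ℤ) + 1) • red i (R i) :=
            congrArg (fun z => red i (P' i) + z) (map_zsmul (red i) _ _)
        _ = red i (P' i) := by rw [hz, add_zero]
    have h3 := fun i => hREPM p (a i) (b i) h2 (red i) (hred' i) (P i) (P' i) _ _ _ _ _ _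
      (hrep i (P i)) (hrep i (P' i)) (h1 i) m
    choose u hu1 hu2 using h3
    refine ⟨∏ i, u i, ?_, ?_⟩
    · intro h
      obtain ⟨i, -, hi⟩ := (Prime.dvd_finsetProd_iff (Nat.prime_iff_prime_int.1 hp) _).1 h
      exact hu1 i hi
    · intro s
      rw [← ZMod.intCast_zmod_eq_zero_iff_dvd]
      push_cast
      rw [← Finset.prod_pow, ← Finset.prod_mul_distrib, sub_eq_zero]
      apply Finset.prod_congr rfl
      intro i _
      have := hu2 i (s i)
      rw [← ZMod.intCast_zmod_eq_zero_iff_dvd] at this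
      push_cast at this
      rw [sub_eq_zero] at this
      exact this
  · intro P
    have h3 := fun i => hREPN p hp (a i) (b i) (P i) _ _ _ (hrep i (P i)) m
    choose s hs using h3
    refine ⟨s, ?_⟩
    intro h
    obtain ⟨i, -, hi⟩ := (Prime.dvd_finsetProd_iff (Nat.prime_iff_prime_int.1 hp) _).1 h
    exact hs i hi

theorem main (hMW : MW) (hRED : RED) (hEXP : EXP) (hREPE : REPE) (hREPM : REPM) (hREPN : REPN)
    (hHP : HP) (hCRD : CRD) (hABS : ABS) : MAIN := by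
  classical
  intro r m hr hm a b M D hM hD hdisc hss ε hε
  have hfg : ∀ i, Module.Finite ℤ (crv ℚ (a i : ℚ) (b i : ℚ)).Point := fun i =>
    Module.Finite.iff_addGroup_fg.2 (hMW (a i) (b i) (hdisc i))
  have hFG : AddGroup.FG ((i : Fin r) → (crv ℚ (a i : ℚ) (b i : ℚ)).Point) :=
    Module.Finite.iff_addGroup_fg.1 inferInstance
  have hex : ∀ (i : Fin r) (P : (crv ℚ (a i : ℚ) (b i : ℚ)).Point), ∃ z : ℤ × ℤ × ℤ,
      Rep P z.1 z.2.1 z.2.2 := by
    intro i P
    obtain ⟨X, Y, Z, h⟩ := hREPE (a i) (b i) P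
    exact ⟨(X, Y, Z), h⟩
  choose rep hrep using hex
  have hS := sieveable (m := m) hRED hEXP hREPM hREPN a b M D hM hD hdisc hss rep hrep
  obtain ⟨C, hC⟩ := hABS _ (Fin r → Mon m) 1 (Or.inl rfl) _ hS ε hε
  refine ⟨C, fun H hH => ?_⟩
  have h1 := hC H hH
  have hcard : (Fintype.card (Fin r → Mon m) : ℝ) = (2 * m : ℝ) ^ r := by
    rw [Fintype.card_fun, hCRD m hm, Fintype.card_fin]
    push_cast
    ring
  rw [hcard] at h1
  refine le_trans ?_ h1
  have h2 := card_box_le (ι := Fin r → Mon m) H (fun c => HasPoint a b c)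
    (fun c => ∃ P : (i : Fin r) → (crv ℚ (a i : ℚ) (b i : ℚ)).Point,
      IsSquare (∑ j, c j * ∏ i, mono (j i) (rep i (P i)).1 (rep i (P i)).2.1 (rep i (P i)).2.2)) (by
    intro c hc
    obtain ⟨P, hP⟩ := hHP r m a b c hdisc hc rep hrep
    refine ⟨P, ?_⟩
    simpa [Fc] using hP)
  exact_mod_cast h2

end Pool.Agent.H925R3.DC
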