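import Mathlib
import Pool.Agent.H925R3.DC.Main
import Pool.Agent.H925R3.DC.Abs
import Pool.Agent.H133R3.DC_CLS
import Pool.Agent.H35R6.DC_CNT
import Pool.Agent.H972R3.DC_CRD
import Pool.Agent.H477R5.DC_EXP
import Pool.Agent.H311R2.DC.DC_HP
import Pool.Agent.H459R2.DC_LIN
import Pool.Agent.H439DC.DC_LSF
import Pool.Agent.H237R2.DC_LSQ
import Pool.Agent.H64R2.DC_MW
import Pool.Agent.H318R5.DC.DC_PRM
import Pool.Agent.H498DC.DC_PRMC
import Pool.Agent.Helper55.DC_PRMQ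
import Pool.Agent.H227DC.DC_PRMS
import Pool.Agent.H475R2.DC_RED
import Pool.Agent.H439DC.DC_REDA
import Pool.Agent.H816R2.DC_REDB
import Pool.Agent.Helper171.DC_REDC
import Pool.Agent.H940D.DC_REPE
import Pool.Agent.H940D.DC_REPM
import Pool.Agent.H196R2.DC_REPN
import Pool.Agent.H410R2.MFinal
import Pool.Agent.H911R5.DC_PAR

/-! Everything put together. -/

namespace Pool.Agent.H925R3.DC

theorem lsq' : LSQ := Pool.Agent.H237R2.DC_LSQ.lsq Pool.Agent.H439DC.lsf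
theorem lin' : LIN := fun ι _ _ => Pool.Agent.H459R2.DCLIN.lin lsq' ι
theorem red' : RED := Pool.Agent.H475R2.DC_RED.red Pool.Agent.H439DC.reda
  Pool.Agent.H816R2.DCREDB.redb Pool.Agent.Helper171.DCREDC.redc
theorem prm' : PRM := Pool.Agent.H318R5.DC.prm Pool.Agent.H410R2.bvap Pool.Agent.H732R2.pntLog
  Pool.Agent.Helper55.DC.prmq Pool.Agent.H227DC.prms Pool.Agent.H498DC.prmc

theorem absThm : ABS := abs_main Pool.Agent.H133R3.DC.cls prm' lin' Pool.Agent.H911R5.DCPAR.par'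

theorem mainThm : MAIN := main Pool.Agent.H64R2.DCMW.mw red' Pool.Agent.H477R5.DC.exp
  Pool.Agent.H940D.repe Pool.Agent.H940D.repm Pool.Agent.H196R2.DC.repn Pool.Agent.H311R2.DC.hp
  Pool.Agent.H972R3.DC_CRD.crd absThm

end Pool.Agent.H925R3.DC
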